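import Mathlib

namespace Pool.Agent.Results.MP_086516_nt.Nonempty

open Finset Polynomial

lemma exists_nonpos {ι : Type} (s : Finset ι) (y : ι → ℝ) (hy : ∀ i ∈ s, y i ≠ 0) :
    ∃ t : ℝ, ∑ i ∈ s, Real.cos (t * y i) ≤ 0 := by
  by_contra h
  push Not at h
  have dS : ∀ t, HasDerivAt (fun t => ∑ i ∈ s, Real.sin (t * y i) / y i)
      (∑ i ∈ s, Real.cos (t * y i)) t := fun t => by
    refine HasDerivAt.fun_sum fun i hi => ?_
    have := (((hasDerivAt_id t).mul_const (y i)).sin).div_const (y i)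
    refine this.congr_deriv ?_
    have := hy i hi
    simp only [id]
    field_simp
  have dH : ∀ t, HasDerivAt (fun t => ∑ i ∈ s, -Real.cos (t * y i) / y i ^ 2)
      (∑ i ∈ s, Real.sin (t * y i) / y i) t := fun t => by
    refine HasDerivAt.fun_sum fun i hi => ?_
    have := (((hasDerivAt_id t).mul_const (y i)).cos.neg).div_const (y i ^ 2)
    refine this.congr_deriv ?_
    have := hy i hi
    simp only [id]
    field_simp
  have mono : StrictMono fun t => ∑ i ∈ s, Real.sin (t * y i) / y i :=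
    strictMono_of_deriv_pos fun t => by rw [(dS t).deriv]; exact h t
  set δ := ∑ i ∈ s, Real.sin (1 * y i) / y i with hδ
  have hδ0 : 0 < δ := by simpa [hδ] using mono (show (0 : ℝ) < 1 by norm_num)
  set M := ∑ i ∈ s, 1 / y i ^ 2 with hM
  have hM0 : 0 ≤ M := sum_nonneg fun i _ => by positivity
  have bd : ∀ t, |∑ i ∈ s, -Real.cos (t * y i) / y i ^ 2| ≤ M := fun t => by
    refine (abs_sum_le_sum_abs _ _).trans (sum_le_sum fun i _ => ?_)
    rw [abs_div, abs_neg, abs_of_nonneg (sq_nonneg (y i))]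
    exact div_le_div_of_nonneg_right (Real.abs_cos_le_one _) (sq_nonneg _)
  have hlt : (1 : ℝ) < 1 + (2 * M + 1) / δ := by
    have : 0 < (2 * M + 1) / δ := by positivity
    linarith
  obtain ⟨c, hc, h2⟩ := exists_hasDerivAt_eq_slope _ _ hlt
    (fun t _ => (dH t).continuousAt.continuousWithinAt) (fun t _ => dH t)
  have h3 : δ < ∑ i ∈ s, Real.sin (c * y i) / y i := mono hc.1
  rw [h2, add_sub_cancel_left, lt_div_iff₀ (by positivity), mul_div_cancel₀ _ hδ0.ne'] at h3
  have b1 := abs_le.1 (bd (1 + (2 * M + 1) / δ))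
  have b2 := abs_le.1 (bd 1)
  linarith [b1.2, b2.1]

lemma exists_one (k : ℕ) (hk : 1 ≤ k) : ∃ t : ℝ,
    ∑ i ∈ range k, Complex.exp (((t * Real.sin (Real.pi * (2 * i + 1) / k) : ℝ) : ℂ) * Complex.I) =
      1 := by
  have hk0 : (k : ℝ) ≠ 0 := by positivity
  set y : ℕ → ℝ := fun i => Real.sin (Real.pi * (2 * i + 1) / k) with hy
  obtain ⟨t0, ht0⟩ := exists_nonpos ((range k).filter fun i => 2 * i + 1 ≠ k) y fun i hi h => by
    rw [mem_filter, mem_range] at hi
    obtain ⟨n, hn⟩ := Real.sin_eq_zero_iff.1 h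
    have h1 : (n : ℝ) * k = 2 * i + 1 := by
      field_simp at hn
      linarith
    have h2 : n * (k : ℤ) = 2 * i + 1 := by exact_mod_cast h1
    have h3 : 0 < n := by
      by_contra h4
      nlinarith
    have h4 : n < 2 := by
      by_contra h4
      nlinarith [hi.1]
    obtain rfl : n = 1 := by omega
    omega
  have h1 : ∑ i ∈ range k, Real.cos (t0 * y i) ≤ 1 := by
    rw [← sum_filter_add_sum_filter_not (range k) fun i => 2 * i + 1 ≠ k]
    have : ∑ i ∈ (range k).filter fun i => ¬ 2 * i + 1 ≠ k, Real.cos (t0 * y i) ≤ 1 := by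
      refine (sum_le_card_nsmul _ _ 1 fun i _ => Real.cos_le_one _).trans ?_
      rw [nsmul_eq_mul, mul_one, Nat.cast_le_one, card_le_one]
      intro a ha b hb
      rw [mem_filter] at ha hb
      omega
    linarith
  have h2 : (1 : ℝ) ≤ ∑ i ∈ range k, Real.cos (0 * y i) := by simpa using hk
  obtain ⟨t, ht⟩ : ∃ t : ℝ, ∑ i ∈ range k, Real.cos (t * y i) = 1 :=
    intermediate_value_univ t0 0 (f := fun t => ∑ i ∈ range k, Real.cos (t * y i))
      (by fun_prop) ⟨h1, h2⟩
  refine ⟨t, Complex.ext ?_ ?_⟩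
  · simpa only [Complex.re_sum, Complex.exp_ofReal_mul_I_re, Complex.one_re] using ht
  · simp only [Complex.im_sum, Complex.exp_ofReal_mul_I_im, Complex.one_im]
    have h3 := sum_range_reflect (fun i => Real.sin (t * y i)) k
    have h4 : ∑ i ∈ range k, Real.sin (t * y (k - 1 - i)) = -∑ i ∈ range k, Real.sin (t * y i) := by
      rw [← sum_neg_distrib]
      refine sum_congr rfl fun i hi => ?_
      have h5 := mem_range.1 hi
      have h6 : ((k - 1 - i : ℕ) : ℝ) = k - 1 - i := by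
        rw [Nat.cast_sub (by omega), Nat.cast_sub hk]; simp
      have h7 : Real.pi * (2 * ((k : ℝ) - 1 - i) + 1) / k =
          2 * Real.pi - Real.pi * (2 * i + 1) / k := by
        field_simp
        ring
      simp only [hy]
      rw [h6, h7, Real.sin_two_pi_sub, mul_neg, Real.sin_neg]
    linarith

/-- For every `k ≥ 1`, with `ζ = e^{2 π i / k}`, `d = φ(k)` and `A` the (finite) set of integer
vectors `a` for which `∑ a_j ζ ^ j` is a `k`-th root of unity, the hypersurface
`x_0 + ∑_{a ∈ A} x ^ a = 0` meets the unit torus. -/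
theorem result : ∀ k : ℕ, 1 ≤ k → ∃ A : Finset (Fin k.totient → ℤ),
    (∀ a, a ∈ A ↔
      (∑ j, (a j : ℂ) * Complex.exp (2 * Real.pi * Complex.I / k) ^ (j : ℕ)) ^ k = 1) ∧
    ∃ (x₀ : ℂ) (x : Fin k.totient → ℂ), ‖x₀‖ = 1 ∧ (∀ j, ‖x j‖ = 1) ∧
      x₀ + ∑ a ∈ A, ∏ j, x j ^ a j = 0 := by
  intro k hk
  haveI : NeZero k := ⟨by omega⟩
  have hz := Complex.isPrimitiveRoot_exp k (by omega)
  set ζ := Complex.exp (2 * Real.pi * Complex.I / k) with hζ
  set a : ℕ → Fin k.totient → ℤ := fun i j => (X ^ i %ₘ cyclotomic k ℤ).coeff j with ha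
  have h1 : ∀ i, ∑ j, (a i j : ℂ) * ζ ^ (j : ℕ) = ζ ^ i := fun i => by
    have h2 : (X ^ i %ₘ cyclotomic k ℤ).natDegree < k.totient := by
      rw [← natDegree_cyclotomic k ℤ]
      refine natDegree_modByMonic_lt _ (cyclotomic.monic k ℤ) fun h => ?_
      have := natDegree_cyclotomic k ℤ
      rw [h, natDegree_one] at this
      exact (Nat.totient_pos.2 hk).ne this
    have h3 : aeval ζ (cyclotomic k ℤ) = 0 := by
      rw [cyclotomic_eq_minpoly hz hk]; exact minpoly.aeval _ _
    have h4 := aeval_modByMonic_eq_self_of_root (p := X ^ i) h3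
    rw [aeval_eq_sum_range' h2, map_pow, aeval_X] at h4
    rw [← h4, ← Fin.sum_univ_eq_sum_range fun j => (X ^ i %ₘ cyclotomic k ℤ).coeff j • ζ ^ j]
    simp [ha]
  have h2 : ∀ b c : Fin k.totient → ℤ,
      ∑ j, (b j : ℂ) * ζ ^ (j : ℕ) = ∑ j, (c j : ℂ) * ζ ^ (j : ℕ) → b = c := fun b c h => by
    have h3 := linearIndependent_pow (K := ℚ) ζ
    rw [← cyclotomic_eq_minpoly_rat hz hk, natDegree_cyclotomic] at h3
    have h4 := Fintype.linearIndependent_iff.1 h3 (fun j => (b j - c j : ℚ)) (by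
      rw [← sub_eq_zero, ← sum_sub_distrib] at h
      rw [← h]
      refine sum_congr rfl fun j _ => ?_
      rw [Algebra.smul_def]
      simp only [map_sub, map_intCast]
      ring)
    ext j
    exact_mod_cast sub_eq_zero.1 (h4 j)
  obtain ⟨t, ht⟩ := exists_one k hk
  set c := Complex.exp (Real.pi * Complex.I / k) with hc
  refine ⟨(range k).image a, fun b => ?_, -1,
    fun j => Complex.exp (((t * (c * ζ ^ (j : ℕ)).im : ℝ) : ℂ) * Complex.I), by simp,
    fun j => Complex.norm_exp_ofReal_mul_I _, ?_⟩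
  · rw [mem_image]
    constructor
    · rintro ⟨i, -, rfl⟩
      rw [h1, ← pow_mul, mul_comm, pow_mul, hz.pow_eq_one, one_pow]
    · intro h
      obtain ⟨i, hi, h3⟩ := hz.eq_pow_of_pow_eq_one h
      exact ⟨i, mem_range.2 hi, h2 _ _ (by rw [h1, h3])⟩
  · rw [sum_image fun i hi j hj h => hz.pow_inj (mem_range.1 hi) (mem_range.1 hj)
      (by rw [← h1, ← h1, h]), ← ht, neg_add_eq_zero]
    refine sum_congr rfl fun i _ => ?_
    simp only [← Complex.exp_int_mul, ← Complex.exp_sum]
    congr 1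
    have h3 : c * ζ ^ i = Complex.exp (((Real.pi * (2 * i + 1) / k : ℝ) : ℂ) * Complex.I) := by
      rw [hc, hζ, ← Complex.exp_nat_mul, ← Complex.exp_add]
      congr 1
      push_cast
      ring
    rw [← Complex.exp_ofReal_mul_I_im, ← h3, ← h1 i, mul_sum, Complex.im_sum, mul_sum,
      Complex.ofReal_sum, sum_mul]
    refine sum_congr rfl fun j _ => ?_
    rw [mul_left_comm c, ← Complex.ofReal_intCast, Complex.im_ofReal_mul]
    push_cast
    ring

end Pool.Agent.Results.MP_086516_nt.Nonempty
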